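import Pool.Agent.Helper277.Pair

set_option autoImplicit false

namespace Pool.Agent.Results.MP_b01f87_al.LocallySoluble

universe u

/-- `r` is a right order on `K` (strict total order, `f < g` implies `f h < g h`). -/
structure IsRightOrder {K : Type*} [Group K] (r : K → K → Prop) : Prop where
  irrefl : ∀ a, ¬ r a a
  trans : ∀ a b c, r a b → r b c → r a c
  total : ∀ a b, a ≠ b → r a b ∨ r b a
  mul_right : ∀ f g h, r f g → r (f * h) (g * h)

/-- `r` is a total order on `K` invariant under multiplication on both sides. -/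
structure IsBiOrder {K : Type*} [Group K] (r : K → K → Prop) : Prop extends IsRightOrder r where
  mul_left : ∀ f g h, r f g → r (h * f) (h * g)

/-- The Conrad condition: `1 < f < g` implies `f g ^ m f⁻¹ > g` for some positive integer `m`. -/
def IsConrad {K : Type*} [Group K] (r : K → K → Prop) : Prop :=
  ∀ f g : K, r 1 f → r f g → ∃ m : ℕ, 0 < m ∧ r g (f * g ^ m * f⁻¹)

/-- Every right order on `K` is a Conrad right order. -/
def EveryRightOrderConrad (K : Type*) [Group K] : Prop :=
  ∀ r : K → K → Prop, IsRightOrder r → IsConrad r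

open ConradSol

lemma rel_iff {K : Type*} [Group K] {r : K → K → Prop} (h : IsRightOrder r) (a b : K) :
    r a b ↔ r 1 (b * a⁻¹) := by
  constructor
  · intro h1
    have := h.mul_right _ _ a⁻¹ h1
    rwa [mul_inv_cancel] at this
  · intro h1
    have := h.mul_right _ _ a h1
    rwa [one_mul, inv_mul_cancel_right] at this

lemma cone_of_rightOrder {K : Type*} [Group K] {r : K → K → Prop} (h : IsRightOrder r) :
    Cone {x : K | r 1 x} := by
  refine ⟨?_, h.irrefl 1, ?_⟩
  · intro x hx y hy
    have := h.mul_right _ _ y hx
    rw [one_mul] at this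
    exact h.trans _ _ _ hy this
  · intro x hx
    rcases h.total 1 x (Ne.symm hx) with h1 | h1
    · exact Or.inl h1
    · right
      have := h.mul_right _ _ x⁻¹ h1
      rwa [mul_inv_cancel, one_mul] at this

lemma rightOrder_of_cone {K : Type*} [Group K] {P : Set K} (h : Cone P) :
    IsRightOrder (fun a b : K => b * a⁻¹ ∈ P) := by
  refine ⟨?_, ?_, ?_, ?_⟩
  · intro a ha
    rw [mul_inv_cancel] at ha
    exact h.one_not_mem ha
  · intro a b c h1 h2
    have := h.mul_mem _ h2 _ h1
    rwa [show c * b⁻¹ * (b * a⁻¹) = c * a⁻¹ by group] at this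
  · intro a b hab
    rcases h.total (b * a⁻¹) (fun h' => hab (mul_inv_eq_one.mp h').symm) with h1 | h1
    · exact Or.inl h1
    · right
      rwa [show a * b⁻¹ = (b * a⁻¹)⁻¹ by group]
  · intro f g k h1
    rwa [show g * k * (f * k)⁻¹ = g * f⁻¹ by group]

lemma conrad_iff {K : Type*} [Group K] : EveryRightOrderConrad K ↔ AllConrad K := by
  constructor
  · intro h P hP f g hf hg
    obtain ⟨m, hm, h1⟩ := h _ (rightOrder_of_cone hP) f g (by simpa using hf) hg
    exact ⟨m, hm, h1⟩
  · intro h r hr f g hf hg
    obtain ⟨m, hm, h1⟩ := h _ (cone_of_rightOrder hr) f g hf ((rel_iff hr f g).mp hg)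
    exact ⟨m, hm, (rel_iff hr _ _).mpr h1⟩

lemma orderable_of_biOrder {K : Type*} [Group K] (h : ∃ r : K → K → Prop, IsBiOrder r) :
    Orderable K := by
  obtain ⟨r, hr⟩ := h
  refine ⟨{x | r 1 x}, ⟨cone_of_rightOrder hr.toIsRightOrder, ?_⟩⟩
  intro g x hx
  have h1 := hr.mul_right _ _ g⁻¹ (hr.mul_left _ _ g hx)
  rwa [mul_one, mul_inv_cancel] at h1

lemma closure_pair_solvable {G : Type u} [Group G] {H : Subgroup G}
    (h : ∀ f ∈ H, ∀ g ∈ H, Group.IsSolvable (Subgroup.closure {f, g} : Subgroup G)) (f g : H) :
    Group.IsSolvable (Subgroup.closure {f, g} : Subgroup H) := by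
  have h1 := h f f.2 g g.2
  have h2 : (Subgroup.closure {f, g} : Subgroup H).map H.subtype =
      Subgroup.closure {(f : G), (g : G)} := by
    rw [MonoidHom.map_closure, Set.image_pair]
    rfl
  rw [← h2] at h1
  let e := (Subgroup.closure {f, g} : Subgroup H).equivMapOfInjective H.subtype H.subtype_injective
  exact Group.isSolvable_of_isSolvable_injective (f := e.toMonoidHom) e.injective

/-- Let `G` be an orderable group, soluble or not, all of whose right orders are Conrad. Then
finitely generated soluble subgroups of `G` are nilpotent, and for every subgroup `H` of `G` whose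
two-generator subgroups are soluble (for instance every soluble or locally soluble `H`) every right
order on `H` is a Conrad right order. In particular, if `G` is soluble, then for every subgroup `H`
of `G` every right order on `H` is a Conrad right order. -/
theorem result (G : Type u) [Group G]
    (hG : ∃ r : G → G → Prop, IsBiOrder r) (hC : EveryRightOrderConrad G) :
    (∀ H : Subgroup G, H.FG → Group.IsSolvable H → Group.IsNilpotent H) ∧
    (∀ H : Subgroup G,
      (∀ f ∈ H, ∀ g ∈ H, Group.IsSolvable (Subgroup.closure {f, g} : Subgroup G)) →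
        EveryRightOrderConrad H) ∧
    (Group.IsSolvable G → ∀ H : Subgroup G, EveryRightOrderConrad H) := by
  have hOX : OX G := ⟨orderable_of_biOrder hG, conrad_iff.mp hC⟩
  have key : ∀ H : Subgroup G,
      (∀ f ∈ H, ∀ g ∈ H, Group.IsSolvable (Subgroup.closure {f, g} : Subgroup G)) →
        EveryRightOrderConrad H := by
    intro H h
    refine conrad_iff.mpr (allConrad_of_hom hOX H.subtype ?_ (closure_pair_solvable h))
    rw [H.ker_subtype]
    exact bot_le
  exact ⟨fun H hH hs => fg_soluble_nilpotent hOX H hH hs, key,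
    fun _ H => key H (fun f _ g _ => inferInstance)⟩

/-- Sanity check: the hypotheses are satisfied by the infinite cyclic group. -/
theorem hypotheses_int : (∃ r : Multiplicative ℤ → Multiplicative ℤ → Prop, IsBiOrder r) ∧
    EveryRightOrderConrad (Multiplicative ℤ) := by
  constructor
  · refine ⟨(· < ·), ⟨⟨lt_irrefl, fun a b c => lt_trans, fun a b h => lt_or_gt_of_ne h, ?_⟩, ?_⟩⟩
    · intro f g h hfg
      exact mul_lt_mul_left hfg h
    · intro f g h hfg
      exact mul_lt_mul_right hfg h
  · rw [conrad_iff]
    intro P hP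
    exact conrad_of_nilpotent hP (fun f g => inferInstance)

end Pool.Agent.Results.MP_b01f87_al.LocallySoluble
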